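import Mathlib

/-!
Helper file for the Euclidean window problem: in a number field of unit rank one there are
fractions whose denominator is divisible by an arbitrarily high power of a given prime and whose
distance (in norm) to the ring of integers is bounded below by a fixed constant.
-/

open NumberField IsDedekindDomain
open scoped nonZeroDivisors

namespace Pool.Agent.H79.EucWin

/-- Horner digit sum `D n = ∑_{j<n} s j η^(n-1-j)`. -/
def D {R : Type*} [CommRing R] (η : R) (s : ℤ → ℕ) : ℕ → R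
  | 0 => 0
  | (n + 1) => η * D η s n + (s (n : ℤ) : R)

theorem D_shift {R : Type*} [CommRing R] (η : R) (s : ℤ → ℕ) (n : ℕ) :
    D η (fun j => s (j + 1)) n = D η s (n + 1) - (s 0 : R) * η ^ n := by
  induction n with
  | zero => simp [D]
  | succ n ih =>
    rw [D, ih]
    simp only [D]
    push_cast
    ring

theorem D_step {R : Type*} [CommRing R] (η : R) (s : ℤ → ℕ) (T : ℕ)
    (hs : ∀ j : ℤ, s (j + T) = s j) :
    η * D η s T = (s 0 : R) * (η ^ T - 1) + D η (fun j => s (j + 1)) T := by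
  rw [D_shift, D]
  have : s (T : ℤ) = s 0 := by simpa using hs 0
  rw [this]
  ring

/-- the set of translates of digit expansions (numerators). -/
def InS {R : Type*} [CommRing R] (η : Rˣ) (T : ℕ) (z : R) : Prop :=
  ∃ s : ℤ → ℕ, (∀ j, s j = 1 ∨ s j = 2) ∧ (∀ j : ℤ, s (j + T) = s j) ∧
    ∃ a : R, z = D (η : R) s T + a * ((η : R) ^ T - 1)

theorem InS_mul {R : Type*} [CommRing R] (η : Rˣ) (T : ℕ) (z : R) (h : InS η T z) :
    InS η T (η * z) := by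
  obtain ⟨s, h1, h2, a, rfl⟩ := h
  refine ⟨fun j => s (j + 1), fun j => h1 _, fun j => ?_, (s 0 : R) + η * a, ?_⟩
  · show s (j + T + 1) = s (j + 1)
    rw [← h2 (j + 1)]
    congr 1; ring
  · rw [mul_add, D_step (η : R) s T h2]
    ring

theorem InS_inv {R : Type*} [CommRing R] (η : Rˣ) (T : ℕ) (z : R) (h : InS η T z) :
    InS η T (((η⁻¹ : Rˣ) : R) * z) := by
  obtain ⟨s, h1, h2, a, rfl⟩ := h
  have key := D_step (η : R) (fun j => s (j - 1)) T (fun j => by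
    show s (j + T - 1) = s (j - 1)
    rw [← h2 (j - 1)]; congr 1; ring)
  have e : (fun j : ℤ => (fun j => s (j - 1)) (j + 1)) = s := by
    funext j; show s (j + 1 - 1) = s j; congr 1; ring
  rw [e] at key
  refine ⟨fun j => s (j - 1), fun j => h1 _, fun j => ?_,
    ((η⁻¹ : Rˣ) : R) * a - ((η⁻¹ : Rˣ) : R) * (s (0 - 1) : R), ?_⟩
  · show s (j + T - 1) = s (j - 1)
    rw [← h2 (j - 1)]; congr 1; ring
  · have hu : ((η⁻¹ : Rˣ) : R) * (η : R) = 1 := by simp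
    have : D (η : R) s T = (η : R) * D (η : R) (fun j => s (j - 1)) T -
        ((s (0 - 1) : ℕ) : R) * ((η : R) ^ T - 1) := by
      rw [key]; ring
    rw [this]
    linear_combination (D (η : R) (fun j => s (j - 1)) T) * hu

theorem InS_zpow {R : Type*} [CommRing R] (η : Rˣ) (T : ℕ) (z : R) (h : InS η T z) (n : ℤ) :
    InS η T (((η ^ n : Rˣ) : R) * z) := by
  induction n using Int.induction_on with
  | zero => simpa using h
  | succ n ih =>
    have := InS_mul η T _ ih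
    rw [← mul_assoc, ← Units.val_mul, ← zpow_one_add, add_comm] at this
    exact this
  | pred n ih =>
    have := InS_inv η T _ ih
    rw [← mul_assoc, ← Units.val_mul, ← zpow_neg_one, ← zpow_add] at this
    rw [show (-(n:ℤ) - 1) = -1 + -(n:ℤ) by ring]
    exact this

variable (K : Type*) [Field K] [NumberField K]

/-- unit-rank one: exactly two infinite places -/
theorem two_places (hr : NumberField.Units.rank K = 1) :
    ∃ w₁ w₂ : InfinitePlace K, w₁ ≠ w₂ ∧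
      ∀ x : K, |(Algebra.norm ℚ x : ℝ)| = w₁ x ^ w₁.mult * w₂ x ^ w₂.mult := by
  classical
  have h : Fintype.card (InfinitePlace K) = 2 := by
    unfold NumberField.Units.rank at hr
    omega
  rw [← Finset.card_univ, Finset.card_eq_two] at h
  obtain ⟨w₁, w₂, hne, hu⟩ := h
  refine ⟨w₁, w₂, hne, fun x => ?_⟩
  have := InfinitePlace.prod_eq_abs_norm x
  rw [hu, Finset.prod_pair hne] at this
  rw [this]
  push_cast
  rfl

theorem one_le_abs_norm (x : 𝓞 K) (hx : x ≠ 0) : 1 ≤ |(Algebra.norm ℚ (x : K) : ℝ)| := by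
  have h0 : Algebra.norm ℤ x ≠ 0 := by
    rw [Ne, Algebra.norm_eq_zero_iff]; exact hx
  have h1 : (1 : ℤ) ≤ |Algebra.norm ℤ x| := Int.one_le_abs h0
  have h2 : Algebra.norm ℚ (x : K) = ((Algebra.norm ℤ x : ℤ) : ℚ) := by
    rw [← Algebra.coe_norm_int]
  rw [h2]
  have : ((|Algebra.norm ℤ x| : ℤ) : ℝ) = |(((Algebra.norm ℤ x : ℤ) : ℚ) : ℝ)| := by
    push_cast; rfl
  rw [← this]
  exact_mod_cast h1

theorem abs_norm_unit (u : (𝓞 K)ˣ) : |(Algebra.norm ℚ ((u : 𝓞 K) : K) : ℝ)| = 1 := by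
  have h2 : Algebra.norm ℚ ((u : 𝓞 K) : K) = ((Algebra.norm ℤ (u : 𝓞 K) : ℤ) : ℚ) := by
    rw [← Algebra.coe_norm_int]
  have h3 : IsUnit (Algebra.norm ℤ (u : 𝓞 K)) := u.isUnit.map _
  rw [h2]
  rcases Int.isUnit_iff.mp h3 with h | h <;> rw [h] <;> norm_num

omit [NumberField K] in
theorem mult_le_two (w : InfinitePlace K) : w.mult ≤ 2 := by
  unfold InfinitePlace.mult; split_ifs <;> norm_num

/-- there is a unit that is large at `w₁` and small at `w₂`. -/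
theorem exists_big_unit {w₁ w₂ : InfinitePlace K} (hne : w₁ ≠ w₂)
    (hn : ∀ x : K, |(Algebra.norm ℚ x : ℝ)| = w₁ x ^ w₁.mult * w₂ x ^ w₂.mult) :
    ∃ η : (𝓞 K)ˣ, 37 ≤ w₁ ((η : 𝓞 K) : K) ∧ w₂ ((η : 𝓞 K) : K) ≤ 1 / 10 := by
  obtain ⟨u, hu⟩ := NumberField.Units.dirichletUnitTheorem.exists_unit K w₁
  have hu2 : Real.log (w₂ ((u : 𝓞 K) : K)) < 0 := hu w₂ (Ne.symm hne)
  have hpos2 : 0 < w₂ ((u : 𝓞 K) : K) := by
    rw [InfinitePlace.pos_iff]; simp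
  have hpos1 : 0 < w₁ ((u : 𝓞 K) : K) := by
    rw [InfinitePlace.pos_iff]; simp
  have hlt2 : w₂ ((u : 𝓞 K) : K) < 1 := by
    by_contra hcon
    push Not at hcon
    exact absurd (Real.log_nonneg hcon) (not_le.mpr hu2)
  have hprod : w₁ ((u : 𝓞 K) : K) ^ w₁.mult * w₂ ((u : 𝓞 K) : K) ^ w₂.mult = 1 := by
    rw [← hn]; exact abs_norm_unit K u
  have hgt1 : 1 < w₁ ((u : 𝓞 K) : K) := by
    by_contra hcon
    push Not at hcon
    have h1 : w₁ ((u : 𝓞 K) : K) ^ w₁.mult ≤ 1 := pow_le_one₀ hpos1.le hcon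
    have h2 : w₂ ((u : 𝓞 K) : K) ^ w₂.mult < 1 :=
      pow_lt_one₀ hpos2.le hlt2 InfinitePlace.mult_ne_zero
    have h3 : 0 < w₂ ((u : 𝓞 K) : K) ^ w₂.mult := pow_pos hpos2 _
    nlinarith
  obtain ⟨n1, hn1⟩ := pow_unbounded_of_one_lt 37 hgt1
  obtain ⟨n2, hn2⟩ := exists_pow_lt_of_lt_one (show (0:ℝ) < 1/10 by norm_num) hlt2
  refine ⟨u ^ (n1 + n2), ?_, ?_⟩
  · have : (((u ^ (n1 + n2) : (𝓞 K)ˣ) : 𝓞 K) : K) = ((u : 𝓞 K) : K) ^ (n1 + n2) := by
      push_cast; rfl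
    rw [this, map_pow, pow_add]
    have h1 : 1 ≤ w₁ ((u : 𝓞 K) : K) ^ n2 := one_le_pow₀ hgt1.le
    nlinarith
  · have : (((u ^ (n1 + n2) : (𝓞 K)ˣ) : 𝓞 K) : K) = ((u : 𝓞 K) : K) ^ (n1 + n2) := by
      push_cast; rfl
    rw [this, map_pow, pow_add]
    have h1 : w₂ ((u : 𝓞 K) : K) ^ n1 ≤ 1 := pow_le_one₀ hpos2.le hlt2.le
    have h2 : 0 ≤ w₂ ((u : 𝓞 K) : K) ^ n2 := pow_nonneg hpos2.le _
    nlinarith

omit [NumberField K] in
theorem place_natCast (w : InfinitePlace K) (n : ℕ) : w (n : K) = n := by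
  rw [← InfinitePlace.norm_embedding_eq, map_natCast, Complex.norm_natCast]

omit [NumberField K] in
/-- upper estimate at a place where `η` is large. -/
theorem est_up_big (w : InfinitePlace K) (η : 𝓞 K) (s : ℤ → ℕ) (hs : ∀ j, s j = 1 ∨ s j = 2)
    (hη : 1 < w (η : K)) (n : ℕ) :
    w ((D η s n : 𝓞 K) : K) * (w (η : K) - 1) ≤ 2 * (w (η : K) ^ n - 1) := by
  induction n with
  | zero => simp [D]
  | succ n ih =>
    have h1 : ((D η s (n + 1) : 𝓞 K) : K) = (η : K) * ((D η s n : 𝓞 K) : K) + ((s n : ℕ) : K) := by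
      simp [D]
    have h2 : w ((D η s (n + 1) : 𝓞 K) : K) ≤ w (η : K) * w ((D η s n : 𝓞 K) : K) + (s n : ℕ) := by
      rw [h1]
      refine (w.1.add_le _ _).trans ?_
      rw [← InfinitePlace.coe_apply, ← InfinitePlace.coe_apply]
      rw [map_mul, place_natCast]
    have h3 : ((s n : ℕ) : ℝ) ≤ 2 := by
      rcases hs n with h | h <;> rw [h] <;> norm_num
    have h4 : w ((D η s (n + 1) : 𝓞 K) : K) * (w (η : K) - 1) ≤
        (w (η : K) * w ((D η s n : 𝓞 K) : K) + 2) * (w (η : K) - 1) := by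
      apply mul_le_mul_of_nonneg_right _ (by linarith)
      linarith
    rw [pow_succ]
    nlinarith

omit [NumberField K] in
/-- upper estimate at a place where `η` is small. -/
theorem est_up_small (w : InfinitePlace K) (η : 𝓞 K) (s : ℤ → ℕ) (hs : ∀ j, s j = 1 ∨ s j = 2)
    (hη : w (η : K) ≤ 1 / 10) (n : ℕ) :
    w ((D η s n : 𝓞 K) : K) ≤ 20 / 9 := by
  induction n with
  | zero => simp [D]; norm_num
  | succ n ih =>
    have h1 : ((D η s (n + 1) : 𝓞 K) : K) = (η : K) * ((D η s n : 𝓞 K) : K) + ((s n : ℕ) : K) := by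
      simp [D]
    have h2 : w ((D η s (n + 1) : 𝓞 K) : K) ≤ w (η : K) * w ((D η s n : 𝓞 K) : K) + (s n : ℕ) := by
      rw [h1]
      refine (w.1.add_le _ _).trans ?_
      rw [← InfinitePlace.coe_apply, ← InfinitePlace.coe_apply]
      rw [map_mul, place_natCast]
    have h3 : ((s n : ℕ) : ℝ) ≤ 2 := by
      rcases hs n with h | h <;> rw [h] <;> norm_num
    have h5 : 0 ≤ w ((D η s n : 𝓞 K) : K) := apply_nonneg _ _
    have h6 : 0 ≤ w (η : K) := apply_nonneg _ _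
    nlinarith

omit [NumberField K] in
/-- lower estimate at a place where `η` is small. -/
theorem est_low_small (w : InfinitePlace K) (η : 𝓞 K) (s : ℤ → ℕ) (hs : ∀ j, s j = 1 ∨ s j = 2)
    (hη : w (η : K) ≤ 1 / 10) (n : ℕ) (hn : 1 ≤ n) :
    7 / 9 ≤ w ((D η s n : 𝓞 K) : K) := by
  obtain ⟨m, rfl⟩ : ∃ m, n = m + 1 := ⟨n - 1, by omega⟩
  have h1 : ((s m : ℕ) : K) = ((D η s (m + 1) : 𝓞 K) : K) - (η : K) * ((D η s m : 𝓞 K) : K) := by
    simp [D]
  have h2 : ((s m : ℕ) : ℝ) ≤ w ((D η s (m + 1) : 𝓞 K) : K) + w (η : K) * w ((D η s m : 𝓞 K) : K) := by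
    rw [← place_natCast K w, h1]
    refine (w.1.sub_le_add _ _).trans ?_
    rw [← InfinitePlace.coe_apply, ← InfinitePlace.coe_apply]
    rw [map_mul]
  have h3 : (1 : ℝ) ≤ ((s m : ℕ) : ℝ) := by
    rcases hs m with h | h <;> rw [h] <;> norm_num
  have h4 := est_up_small K w η s hs hη m
  have h5 : 0 ≤ w ((D η s m : 𝓞 K) : K) := apply_nonneg _ _
  have h6 : 0 ≤ w (η : K) := apply_nonneg _ _
  nlinarith

/-- All elements of the translate set stay away from the box around `0`. -/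
theorem sep {w₁ w₂ : InfinitePlace K}
    (hn : ∀ x : K, |(Algebra.norm ℚ x : ℝ)| = w₁ x ^ w₁.mult * w₂ x ^ w₂.mult)
    (η : (𝓞 K)ˣ) (h1 : 37 ≤ w₁ ((η : 𝓞 K) : K)) (h2 : w₂ ((η : 𝓞 K) : K) ≤ 1 / 10)
    (T : ℕ) (hT : 1 ≤ T) (z : 𝓞 K) (hz : InS η T z)
    (hz1 : w₁ (z : K) < 1 / 18 * w₁ ((((η : 𝓞 K) ^ T - 1 : 𝓞 K)) : K))
    (hz2 : w₂ (z : K) < 1 / 18 * w₂ ((((η : 𝓞 K) ^ T - 1 : 𝓞 K)) : K)) : False := by
  obtain ⟨s, hs, -, a, rfl⟩ := hz
  set b : 𝓞 K := (η : 𝓞 K) ^ T - 1 with hb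
  set Dz : 𝓞 K := D (η : 𝓞 K) s T with hD
  set E : ℝ := w₁ ((η : 𝓞 K) : K) with hE
  set e : ℝ := w₂ ((η : 𝓞 K) : K) with he
  have hepos : 0 ≤ e := apply_nonneg _ _
  have hbK : (b : K) = ((η : 𝓞 K) : K) ^ T - 1 := by simp [hb]
  -- size of b
  have hb1 : E ^ T - 1 ≤ w₁ (b : K) := by
    have := w₁.1.le_sub (((η : 𝓞 K) : K) ^ T) 1
    rw [← InfinitePlace.coe_apply, ← InfinitePlace.coe_apply, ← InfinitePlace.coe_apply, map_pow,
      map_one] at this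
    rw [hbK]; exact this
  have heT : e ^ T ≤ 1 / 10 := by
    calc e ^ T ≤ e ^ 1 := pow_le_pow_of_le_one hepos (by linarith) hT
      _ = e := pow_one e
      _ ≤ 1 / 10 := h2
  have hb2 : 9 / 10 ≤ w₂ (b : K) := by
    have := w₂.1.le_sub 1 (((η : 𝓞 K) : K) ^ T)
    rw [← InfinitePlace.coe_apply, ← InfinitePlace.coe_apply, ← InfinitePlace.coe_apply, map_pow,
      map_one] at this
    have h3 : w₂ (b : K) = w₂ (1 - ((η : 𝓞 K) : K) ^ T) := by
      rw [hbK, InfinitePlace.coe_apply, InfinitePlace.coe_apply, ← AbsoluteValue.map_neg, neg_sub]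
    rw [h3]
    have h4 : w₂ ((η : 𝓞 K) : K) ^ T ≤ 1 / 10 := heT
    linarith
  have hb3 : w₂ (b : K) ≤ 11 / 10 := by
    have := w₂.1.sub_le_add (((η : 𝓞 K) : K) ^ T) 1
    rw [← InfinitePlace.coe_apply, ← InfinitePlace.coe_apply, ← InfinitePlace.coe_apply, map_pow,
      map_one] at this
    rw [hbK]
    have h4 : w₂ ((η : 𝓞 K) : K) ^ T ≤ 1 / 10 := heT
    linarith
  have hET : 1 < E ^ T := one_lt_pow₀ (by linarith) (by omega)
  have hb1pos : 0 < w₁ (b : K) := by linarith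
  -- size of D
  have hD1 : w₁ (Dz : K) * (E - 1) ≤ 2 * (E ^ T - 1) :=
    est_up_big K w₁ (η : 𝓞 K) s hs (by linarith) T
  have hD2 : w₂ (Dz : K) ≤ 20 / 9 := est_up_small K w₂ (η : 𝓞 K) s hs h2 T
  have hD3 : 7 / 9 ≤ w₂ (Dz : K) := est_low_small K w₂ (η : 𝓞 K) s hs h2 T hT
  have hD1' : w₁ (Dz : K) ≤ 1 / 18 * w₁ (b : K) := by
    have h5 : w₁ (Dz : K) * 36 ≤ w₁ (Dz : K) * (E - 1) := by
      apply mul_le_mul_of_nonneg_left (by linarith) (apply_nonneg _ _)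
    linarith
  by_cases ha : a = 0
  · subst ha
    rw [zero_mul, add_zero] at hz2
    linarith
  · have hcast : ((a : 𝓞 K) : K) * (b : K) = ((Dz + a * b : 𝓞 K) : K) - (Dz : K) := by
      push_cast; ring
    have g1 : w₁ (a : K) * w₁ (b : K) ≤ w₁ ((Dz + a * b : 𝓞 K) : K) + w₁ (Dz : K) := by
      rw [← map_mul, hcast]
      exact w₁.1.sub_le_add _ _
    have g2 : w₂ (a : K) * w₂ (b : K) ≤ w₂ ((Dz + a * b : 𝓞 K) : K) + w₂ (Dz : K) := by
      rw [← map_mul, hcast]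
      exact w₂.1.sub_le_add _ _
    have k1 : w₁ (a : K) < 1 / 9 := by
      by_contra hcon
      push Not at hcon
      have : 1 / 9 * w₁ (b : K) ≤ w₁ (a : K) * w₁ (b : K) :=
        mul_le_mul_of_nonneg_right hcon hb1pos.le
      linarith
    have k2 : w₂ (a : K) ≤ 3 := by
      by_contra hcon
      push Not at hcon
      have : 3 * w₂ (b : K) ≤ w₂ (a : K) * w₂ (b : K) :=
        mul_le_mul_of_nonneg_right hcon.le (by linarith)
      linarith
    have k3 : 1 ≤ w₁ (a : K) ^ w₁.mult * w₂ (a : K) ^ w₂.mult := by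
      rw [← hn]; exact one_le_abs_norm K a ha
    have n1 : 0 ≤ w₁ (a : K) := apply_nonneg _ _
    have n2 : 0 ≤ w₂ (a : K) := apply_nonneg _ _
    have k4 : w₁ (a : K) ^ w₁.mult ≤ w₁ (a : K) := by
      calc w₁ (a : K) ^ w₁.mult ≤ w₁ (a : K) ^ 1 :=
            pow_le_pow_of_le_one n1 (by linarith) InfinitePlace.mult_pos
        _ = _ := pow_one _
    have k5 : w₂ (a : K) ^ w₂.mult ≤ 9 := by
      calc w₂ (a : K) ^ w₂.mult ≤ 3 ^ w₂.mult := pow_le_pow_left₀ n2 k2 _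
        _ ≤ 3 ^ 2 := pow_le_pow_right₀ (by norm_num) (mult_le_two K w₂)
        _ = 9 := by norm_num
    have n3 : 0 ≤ w₂ (a : K) ^ w₂.mult := pow_nonneg n2 _
    nlinarith

/-- the uniform lower bound. -/
theorem lower {w₁ w₂ : InfinitePlace K}
    (hn : ∀ x : K, |(Algebra.norm ℚ x : ℝ)| = w₁ x ^ w₁.mult * w₂ x ^ w₂.mult)
    (η : (𝓞 K)ˣ) (h1 : 37 ≤ w₁ ((η : 𝓞 K) : K)) (h2 : w₂ ((η : 𝓞 K) : K) ≤ 1 / 10)
    (T : ℕ) (hT : 1 ≤ T) (z : 𝓞 K) (hz : InS η T z) :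
    ((1 / 18 / w₁ ((η : 𝓞 K) : K)) ^ w₁.mult * (1 / 18) ^ w₂.mult) *
      |(Algebra.norm ℚ (((η : 𝓞 K) ^ T - 1 : 𝓞 K) : K) : ℝ)| ≤ |(Algebra.norm ℚ (z : K) : ℝ)| := by
  by_contra hcon
  push Not at hcon
  set b : 𝓞 K := (η : 𝓞 K) ^ T - 1 with hb
  set E : ℝ := w₁ ((η : 𝓞 K) : K) with hE
  have hbK : (b : K) = ((η : 𝓞 K) : K) ^ T - 1 := by simp [hb]
  have hEpos : 0 < E := by linarith
  have hET : 1 < E ^ T := one_lt_pow₀ (by linarith) (by omega)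
  have hb0 : b ≠ 0 := by
    intro h0
    have : ((η : 𝓞 K) : K) ^ T = 1 := by
      rw [h0] at hbK
      have : (0 : K) = ((η : 𝓞 K) : K) ^ T - 1 := by simpa using hbK
      linear_combination -this
    have h3 : E ^ T = 1 := by rw [hE, ← map_pow, this, map_one]
    linarith
  have hbK0 : (b : K) ≠ 0 := by
    simpa using hb0
  have hb1 : 0 < w₁ (b : K) := InfinitePlace.pos_iff.mpr hbK0
  have hb2 : 0 < w₂ (b : K) := InfinitePlace.pos_iff.mpr hbK0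
  by_cases hz0 : z = 0
  · subst hz0
    have q1 : w₁ ((0 : 𝓞 K) : K) = 0 := by simp
    have q2 : w₂ ((0 : 𝓞 K) : K) = 0 := by simp
    refine sep K hn η h1 h2 T hT 0 hz ?_ ?_
    · rw [q1]; change 0 < 1 / 18 * w₁ (b : K); positivity
    · rw [q2]; change 0 < 1 / 18 * w₂ (b : K); positivity
  · have hzK0 : (z : K) ≠ 0 := by simpa using hz0
    have hz1 : 0 < w₁ (z : K) := InfinitePlace.pos_iff.mpr hzK0
    set x : ℝ := w₁ (z : K) / (1 / 18 * w₁ (b : K)) with hx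
    have hxpos : 0 < x := by positivity
    obtain ⟨n, hn1, hn2⟩ := exists_mem_Ico_zpow hxpos (show 1 < E by linarith)
    set u : (𝓞 K)ˣ := η ^ (-(n + 1)) with hu
    set z' : 𝓞 K := (u : 𝓞 K) * z with hz'
    have hzS : InS η T z' := InS_zpow η T z hz (-(n + 1))
    have huK : (((u : 𝓞 K)) : K) = (((η : 𝓞 K) : K)) ^ (-(n + 1)) := by
      rw [hu]
      have h4 := map_zpow (Units.map (algebraMap (𝓞 K) K : 𝓞 K →* K)) η (-(n + 1))
      have h5 := congrArg Units.val h4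
      rw [Units.val_zpow_eq_zpow_val] at h5
      exact h5
    have hz'K : (z' : K) = ((u : 𝓞 K) : K) * (z : K) := by
      rw [hz']; push_cast; rfl
    have e1 : w₁ (z' : K) = E ^ (-(n + 1)) * w₁ (z : K) := by
      rw [hz'K, map_mul, huK, map_zpow₀]
    have hprod : |(Algebra.norm ℚ (z' : K) : ℝ)| = |(Algebra.norm ℚ (z : K) : ℝ)| := by
      rw [hz'K, map_mul]
      push_cast
      rw [abs_mul, abs_norm_unit K u, one_mul]
    have hEz : 0 < E ^ (-(n + 1)) := zpow_pos hEpos _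
    have hx1 : w₁ (z' : K) = (E ^ (-(n + 1)) * x) * (1 / 18 * w₁ (b : K)) := by
      rw [e1, hx]
      field_simp
    have lo : 1 / E ≤ E ^ (-(n + 1)) * x := by
      calc 1 / E = E ^ (-(n + 1)) * E ^ n := by
            rw [← zpow_add₀ hEpos.ne', show (-(n + 1) + n) = -1 by ring, zpow_neg_one, one_div]
        _ ≤ _ := mul_le_mul_of_nonneg_left hn1 hEz.le
    have hi : E ^ (-(n + 1)) * x < 1 := by
      calc E ^ (-(n + 1)) * x < E ^ (-(n + 1)) * E ^ (n + 1) := mul_lt_mul_of_pos_left hn2 hEz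
        _ = 1 := by rw [← zpow_add₀ hEpos.ne', show (-(n + 1) + (n + 1)) = 0 by ring, zpow_zero]
    have c1 : w₁ (z' : K) < 1 / 18 * w₁ (b : K) := by
      rw [hx1]
      have : 0 < 1 / 18 * w₁ (b : K) := by positivity
      nlinarith
    have c2 : 1 / 18 / E * w₁ (b : K) ≤ w₁ (z' : K) := by
      rw [hx1]
      have : 0 < 1 / 18 * w₁ (b : K) := by positivity
      calc 1 / 18 / E * w₁ (b : K) = (1 / E) * (1 / 18 * w₁ (b : K)) := by ring
        _ ≤ _ := mul_le_mul_of_nonneg_right lo this.le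
    refine sep K hn η h1 h2 T hT z' hzS c1 ?_
    by_contra hc
    push Not at hc
    have d1 : (1 / 18 / E * w₁ (b : K)) ^ w₁.mult ≤ w₁ (z' : K) ^ w₁.mult :=
      pow_le_pow_left₀ (by positivity) c2 _
    have d2 : (1 / 18 * w₂ (b : K)) ^ w₂.mult ≤ w₂ (z' : K) ^ w₂.mult :=
      pow_le_pow_left₀ (by positivity) hc _
    have d3 : (1 / 18 / E * w₁ (b : K)) ^ w₁.mult * (1 / 18 * w₂ (b : K)) ^ w₂.mult ≤
        w₁ (z' : K) ^ w₁.mult * w₂ (z' : K) ^ w₂.mult :=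
      mul_le_mul d1 d2 (by positivity) (by positivity)
    rw [← hn, hprod] at d3
    rw [hn (b : K)] at hcon
    rw [mul_pow, mul_pow] at d3
    have : (1 / 18 / E) ^ w₁.mult * w₁ (b : K) ^ w₁.mult * ((1 / 18) ^ w₂.mult * w₂ (b : K) ^ w₂.mult) =
      (1 / 18 / E) ^ w₁.mult * (1 / 18) ^ w₂.mult * (w₁ (b : K) ^ w₁.mult * w₂ (b : K) ^ w₂.mult) := by ring
    rw [this] at d3
    exact absurd hcon (not_lt.mpr d3)

/-- Fractions with high `p`-power denominators which stay away from the integers. -/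
theorem core (hr : NumberField.Units.rank K = 1) (p : HeightOneSpectrum (𝓞 K)) :
    ∃ δ : ℝ, 0 < δ ∧ ∀ k : ℕ, ∃ a b : 𝓞 K, b ≠ 0 ∧ a ∉ p.asIdeal ∧ b ∈ p.asIdeal ^ k ∧
      ∀ q : 𝓞 K, δ * |(Algebra.norm ℚ (b : K) : ℝ)| ≤
        |(Algebra.norm ℚ ((a - b * q : 𝓞 K) : K) : ℝ)| := by
  obtain ⟨w₁, w₂, hne, hn⟩ := two_places K hr
  obtain ⟨η, h1, h2⟩ := exists_big_unit K hne hn
  have hEpos : 0 < w₁ ((η : 𝓞 K) : K) := by linarith
  refine ⟨(1 / 18 / w₁ ((η : 𝓞 K) : K)) ^ w₁.mult * (1 / 18) ^ w₂.mult, by positivity,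
    fun k => ?_⟩
  -- the exponent
  have hpk : p.asIdeal ^ k ≠ ⊥ := pow_ne_zero _ p.ne_bot
  have : Finite (𝓞 K ⧸ p.asIdeal ^ k) := Ring.HasFiniteQuotients.finiteQuotient hpk
  let ηb : (𝓞 K ⧸ p.asIdeal ^ k)ˣ := Units.map (Ideal.Quotient.mk (p.asIdeal ^ k)).toMonoidHom η
  obtain ⟨T, hT, hT1⟩ := (isOfFinOrder_of_finite ηb).exists_pow_eq_one
  have hbmem : (η : 𝓞 K) ^ T - 1 ∈ p.asIdeal ^ k := by
    rw [← Ideal.Quotient.eq_zero_iff_mem, map_sub, map_pow, map_one, sub_eq_zero]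
    have := congrArg Units.val hT1
    simpa [ηb] using this
  have hT' : 1 ≤ T := hT
  -- nonvanishing of b
  have hET : 1 < w₁ ((η : 𝓞 K) : K) ^ T := one_lt_pow₀ (by linarith) (by omega)
  have hb0 : (η : 𝓞 K) ^ T - 1 ≠ 0 := by
    intro h0
    have h3 : ((η : 𝓞 K) : K) ^ T = 1 := by
      have h4 : (((η : 𝓞 K) ^ T : 𝓞 K) : K) = ((1 : 𝓞 K) : K) := by
        rw [sub_eq_zero.mp h0]
      simpa using h4
    have h5 : w₁ ((η : 𝓞 K) : K) ^ T = 1 := by rw [← map_pow, h3, map_one]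
    linarith
  -- two digit sequences
  let s₁ : ℤ → ℕ := fun _ => 1
  let s₂ : ℤ → ℕ := fun j => if (T : ℤ) ∣ j + 1 then 2 else 1
  have hs₁ : ∀ j, s₁ j = 1 ∨ s₁ j = 2 := fun j => Or.inl rfl
  have hs₂ : ∀ j, s₂ j = 1 ∨ s₂ j = 2 := fun j => by
    show (if (T : ℤ) ∣ j + 1 then 2 else 1) = 1 ∨ (if (T : ℤ) ∣ j + 1 then 2 else 1) = 2
    split_ifs <;> simp
  have hp₁ : ∀ j : ℤ, s₁ (j + T) = s₁ j := fun j => rfl
  have hp₂ : ∀ j : ℤ, s₂ (j + T) = s₂ j := fun j => by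
    show (if (T : ℤ) ∣ j + T + 1 then 2 else 1) = (if (T : ℤ) ∣ j + 1 then 2 else 1)
    have : (T : ℤ) ∣ j + T + 1 ↔ (T : ℤ) ∣ j + 1 := by
      rw [show j + T + 1 = (j + 1) + T by ring]
      exact dvd_add_self_right
    simp only [this]
  have hagree : ∀ n : ℕ, n < T → D (η : 𝓞 K) s₂ n = D (η : 𝓞 K) s₁ n := by
    intro n
    induction n with
    | zero => intro _; rfl
    | succ n ih =>
      intro hlt
      have hnd : ¬ ((T : ℤ) ∣ (n : ℤ) + 1) := by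
        intro hd
        have h6 := Int.le_of_dvd (by positivity) hd
        omega
      simp only [D]
      rw [ih (by omega)]
      have : s₂ (n : ℤ) = s₁ (n : ℤ) := by
        show (if (T : ℤ) ∣ (n : ℤ) + 1 then 2 else 1) = 1
        rw [if_neg hnd]
      rw [this]
  have hdiff : D (η : 𝓞 K) s₂ T = D (η : 𝓞 K) s₁ T + 1 := by
    obtain ⟨m, rfl⟩ : ∃ m, T = m + 1 := ⟨T - 1, by omega⟩
    have h7 := hagree m (by omega)
    simp only [D]
    rw [h7]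
    have e2 : s₂ (m : ℤ) = 2 := by
      show (if ((m + 1 : ℕ) : ℤ) ∣ (m : ℤ) + 1 then 2 else 1) = 2
      rw [if_pos]
      push_cast; exact dvd_rfl
    have e1 : s₁ (m : ℤ) = 1 := rfl
    rw [e2, e1]
    push_cast; ring
  have hpne : (1 : 𝓞 K) ∉ p.asIdeal := fun h => p.isPrime.ne_top ((Ideal.eq_top_iff_one _).mpr h)
  have hmain : ∀ s : ℤ → ℕ, (∀ j, s j = 1 ∨ s j = 2) → (∀ j : ℤ, s (j + T) = s j) → ∀ q : 𝓞 K,
      ((1 / 18 / w₁ ((η : 𝓞 K) : K)) ^ w₁.mult * (1 / 18) ^ w₂.mult) *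
      |(Algebra.norm ℚ (((η : 𝓞 K) ^ T - 1 : 𝓞 K) : K) : ℝ)| ≤
      |(Algebra.norm ℚ ((D (η : 𝓞 K) s T - ((η : 𝓞 K) ^ T - 1) * q : 𝓞 K) : K) : ℝ)| := by
    intro s hs hp q
    exact lower K hn η h1 h2 T hT' _ ⟨s, hs, hp, -q, by ring⟩
  by_cases hmem : D (η : 𝓞 K) s₁ T ∈ p.asIdeal
  · refine ⟨D (η : 𝓞 K) s₂ T, (η : 𝓞 K) ^ T - 1, hb0, ?_, hbmem, hmain s₂ hs₂ hp₂⟩
    intro h8
    rw [hdiff] at h8
    exact hpne ((Ideal.add_mem_iff_right _ hmem).mp h8)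
  · exact ⟨D (η : 𝓞 K) s₁ T, (η : 𝓞 K) ^ T - 1, hb0, hmem, hbmem, hmain s₁ hs₁ hp₁⟩

end Pool.Agent.H79.EucWin
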