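import Mathlib

/-!
Definitions of weighted norms, Euclidean functions and Euclidean windows (MP_f42bc2_nt).
-/

open NumberField IsDedekindDomain
open scoped nonZeroDivisors

namespace Pool.Agent.H79.EucWin

variable (K : Type*) [Field K] [NumberField K]

open Classical in
/-- The multiplicative function on nonzero fractional ideals of `K` whose value at a prime
`q ≠ p` is the absolute norm of `q` and whose value at `p` is `c`. It is evaluated through the
factorisation `I = ∏ q ^ (count q I)` into primes. -/
noncomputable def phi (p : HeightOneSpectrum (𝓞 K)) (c : ℝ)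
    (I : FractionalIdeal (𝓞 K)⁰ K) : ℝ :=
  ∏ᶠ q : HeightOneSpectrum (𝓞 K),
    (if q = p then c else (Ideal.absNorm q.asIdeal : ℝ)) ^ FractionalIdeal.count K q I

open Classical in
/-- The weighted norm `f_{p,c} : K → ℝ`. -/
noncomputable def weightedNorm (p : HeightOneSpectrum (𝓞 K)) (c : ℝ) (α : K) : ℝ :=
  if α = 0 then 0 else phi K p c (FractionalIdeal.spanSingleton (𝓞 K)⁰ α)

/-- Euclidean functions on `𝓞 K` with values in the nonnegative reals. -/
structure IsEuclideanFunction (f : 𝓞 K → ℝ) : Prop where
  nonneg : ∀ r, 0 ≤ f r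
  finite : ∀ t : ℝ, 0 ≤ t → (Set.range f ∩ Set.Icc 0 t).Finite
  eq_zero_iff : ∀ r, f r = 0 ↔ r = 0
  division : ∀ a b : 𝓞 K, b ≠ 0 → ∃ q : 𝓞 K, f (a - b * q) < f b

/-- The Euclidean window of `p`: the real `c > 0` for which the weighted norm `f_{p,c}`,
restricted to `𝓞 K`, is a Euclidean function. -/
def window (p : HeightOneSpectrum (𝓞 K)) : Set ℝ :=
  {c | 0 < c ∧ IsEuclideanFunction K (fun x : 𝓞 K => weightedNorm K p c (x : K))}

end Pool.Agent.H79.EucWin
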