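import Mathlib
import Pool.Agent.H79.EucWin.Defs
import Pool.Agent.H79.EucWin.Core

/-!
General facts about weighted norms and Euclidean windows.
-/

open NumberField IsDedekindDomain
open scoped nonZeroDivisors

namespace Pool.Agent.H79.EucWin

variable {K : Type*} [Field K] [NumberField K]

/-- the exponent of `p` in the principal ideal of an integer. -/
noncomputable def ord (p : HeightOneSpectrum (𝓞 K)) (x : 𝓞 K) : ℕ :=
  (Associates.mk p.asIdeal).count (Associates.mk (Ideal.span {x} : Ideal (𝓞 K))).factors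

theorem one_lt_absNorm (p : HeightOneSpectrum (𝓞 K)) : 1 < Ideal.absNorm p.asIdeal := by
  have h0 : Ideal.absNorm p.asIdeal ≠ 0 := by
    rw [Ne, Ideal.absNorm_eq_zero_iff]; exact p.ne_bot
  have h1 : Ideal.absNorm p.asIdeal ≠ 1 := by
    rw [Ne, Ideal.absNorm_eq_one_iff]; exact p.isPrime.ne_top
  omega

theorem weightedNorm_eq (p : HeightOneSpectrum (𝓞 K)) (c : ℝ) (x : 𝓞 K)
    (hx : x ≠ 0) :
    weightedNorm K p c (x : K) = |(Algebra.norm ℚ (x : K) : ℝ)| *
      (c / (Ideal.absNorm p.asIdeal : ℝ)) ^ ord p x := by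
  classical
  have hxK : (x : K) ≠ 0 := by simpa using hx
  have hJ : (Ideal.span {x} : Ideal (𝓞 K)) ≠ 0 := by
    rw [Ne, Ideal.zero_eq_bot, Ideal.span_singleton_eq_bot]; exact hx
  have hN : (0 : ℝ) < (Ideal.absNorm p.asIdeal : ℝ) := by
    exact_mod_cast lt_trans Nat.zero_lt_one (one_lt_absNorm p)
  unfold weightedNorm phi
  rw [if_neg hxK]
  rw [← FractionalIdeal.coeIdeal_span_singleton]
  simp_rw [FractionalIdeal.count_coe K _ hJ]
  simp_rw [zpow_natCast]
  -- the plain norm factorisation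
  have hfac : ((Ideal.absNorm (Ideal.span {x} : Ideal (𝓞 K)) : ℕ) : ℝ) =
      ∏ᶠ q : HeightOneSpectrum (𝓞 K), (Ideal.absNorm q.asIdeal : ℝ) ^
        (Associates.mk q.asIdeal).count (Associates.mk (Ideal.span {x} : Ideal (𝓞 K))).factors := by
    conv_lhs => rw [← Ideal.finprod_heightOneSpectrum_factorization hJ]
    have h1 := MonoidHom.map_finprod (((Nat.castRingHom ℝ : ℕ →* ℝ)).comp
      (Ideal.absNorm : Ideal (𝓞 K) →*₀ ℕ).toMonoidHom) (Ideal.hasFiniteMulSupport hJ)
    refine h1.trans ?_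
    apply finprod_congr
    intro q
    simp [HeightOneSpectrum.maxPowDividing]
  have hsupp : Function.HasFiniteMulSupport fun q : HeightOneSpectrum (𝓞 K) =>
      (Ideal.absNorm q.asIdeal : ℝ) ^
        (Associates.mk q.asIdeal).count (Associates.mk (Ideal.span {x} : Ideal (𝓞 K))).factors := by
    refine Set.Finite.subset (Ideal.hasFiniteMulSupport hJ) ?_
    intro q hq hq'
    apply hq
    have h2 : q.asIdeal ^ (Associates.mk q.asIdeal).count
      (Associates.mk (Ideal.span {x} : Ideal (𝓞 K))).factors = 1 := hq'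
    have h3 := congrArg Ideal.absNorm h2
    rw [map_pow, map_one] at h3
    show (Ideal.absNorm q.asIdeal : ℝ) ^ _ = 1
    exact_mod_cast h3
  have hsplit : ∀ q : HeightOneSpectrum (𝓞 K),
      (if q = p then c else (Ideal.absNorm q.asIdeal : ℝ)) ^
        (Associates.mk q.asIdeal).count (Associates.mk (Ideal.span {x} : Ideal (𝓞 K))).factors =
      (Ideal.absNorm q.asIdeal : ℝ) ^
        (Associates.mk q.asIdeal).count (Associates.mk (Ideal.span {x} : Ideal (𝓞 K))).factors *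
      (if q = p then (c / (Ideal.absNorm p.asIdeal : ℝ)) ^ ord p x else 1) := by
    intro q
    by_cases hq : q = p
    · subst hq
      rw [if_pos rfl, if_pos rfl, ord, ← mul_pow, mul_div_cancel₀ _ hN.ne']
    · rw [if_neg hq, if_neg hq, mul_one]
  rw [finprod_congr hsplit, finprod_mul_distrib hsupp, ← hfac, finprod_eq_single _ p,
    if_pos rfl, Ideal.absNorm_span_singleton]
  · congr 1
    have h4 : Algebra.norm ℚ (x : K) = ((Algebra.norm ℤ x : ℤ) : ℚ) := by
      rw [← Algebra.coe_norm_int]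
    rw [h4, Nat.cast_natAbs]
    push_cast
    rfl
  · intro q hq
    rw [if_neg hq]
  · refine Set.Finite.subset (Set.finite_singleton p) ?_
    intro q hq
    by_contra hne
    exact hq (if_neg hne)

theorem ord_eq_zero (p : HeightOneSpectrum (𝓞 K)) (x : 𝓞 K) (hx : x ∉ p.asIdeal) : ord p x = 0 := by
  have hx0 : x ≠ 0 := fun h => hx (h ▸ Ideal.zero_mem _)
  have hJ : (Ideal.span {x} : Ideal (𝓞 K)) ≠ 0 := by
    rw [Ne, Ideal.zero_eq_bot, Ideal.span_singleton_eq_bot]; exact hx0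
  by_contra hne
  have h1 := (Associates.count_ne_zero_iff_dvd hJ p.irreducible).mp hne
  rw [Ideal.dvd_span_singleton] at h1
  exact hx h1

theorem le_ord (p : HeightOneSpectrum (𝓞 K)) (x : 𝓞 K) (hx0 : x ≠ 0) (k : ℕ)
    (hx : x ∈ p.asIdeal ^ k) : k ≤ ord p x := by
  have hJ : (Ideal.span {x} : Ideal (𝓞 K)) ≠ 0 := by
    rw [Ne, Ideal.zero_eq_bot, Ideal.span_singleton_eq_bot]; exact hx0
  unfold ord
  rw [← Associates.prime_pow_dvd_iff_le (Associates.mk_ne_zero.mpr hJ) p.associates_irreducible,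
    ← Associates.mk_pow, Associates.mk_le_mk_iff_dvd, Ideal.dvd_span_singleton]
  exact hx

/-- In unit rank one no `c < N p` lies in the Euclidean window. -/
theorem absNorm_le_of_mem_window (hr : NumberField.Units.rank K = 1)
    (p : HeightOneSpectrum (𝓞 K)) {c : ℝ} (hc : c ∈ window K p) :
    (Ideal.absNorm p.asIdeal : ℝ) ≤ c := by
  by_contra hcon
  push Not at hcon
  obtain ⟨hc0, hE⟩ := hc
  have hN : (0 : ℝ) < (Ideal.absNorm p.asIdeal : ℝ) := by
    exact_mod_cast lt_trans Nat.zero_lt_one (one_lt_absNorm p)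
  set θ : ℝ := c / (Ideal.absNorm p.asIdeal : ℝ) with hθ
  have hθ0 : 0 < θ := by positivity
  have hθ1 : θ < 1 := by rw [hθ, div_lt_one hN]; exact hcon
  obtain ⟨δ, hδ, hcore⟩ := core K hr p
  obtain ⟨k, hk⟩ := exists_pow_lt_of_lt_one hδ hθ1
  obtain ⟨a, b, hb0, ha, hb, hlow⟩ := hcore (k + 1)
  obtain ⟨q, hq⟩ := hE.division a b hb0
  have hbp : b ∈ p.asIdeal := Ideal.pow_le_self (Nat.succ_ne_zero k) hb
  have hnm : a - b * q ∉ p.asIdeal := by
    intro h
    have : a = (a - b * q) + b * q := by ring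
    rw [this] at ha
    exact ha (Ideal.add_mem _ h (Ideal.mul_mem_right _ _ hbp))
  have hne : a - b * q ≠ 0 := fun h => hnm (h ▸ Ideal.zero_mem _)
  replace hq : weightedNorm K p c ((a - b * q : 𝓞 K) : K) < weightedNorm K p c (b : K) := hq
  rw [weightedNorm_eq p c _ hne, weightedNorm_eq p c _ hb0, ord_eq_zero p _ hnm, pow_zero,
    mul_one] at hq
  have h1 : θ ^ ord p b ≤ θ ^ k := by
    apply pow_le_pow_of_le_one hθ0.le hθ1.le
    have := le_ord p b hb0 (k + 1) hb
    omega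
  have h2 : 1 ≤ |(Algebra.norm ℚ (b : K) : ℝ)| := one_le_abs_norm K b hb0
  have h3 := hlow q
  have h4 : |(Algebra.norm ℚ (b : K) : ℝ)| * θ ^ ord p b ≤
      |(Algebra.norm ℚ (b : K) : ℝ)| * θ ^ k := mul_le_mul_of_nonneg_left h1 (by linarith)
  nlinarith

/-- If `𝓞 K` is norm-Euclidean then `N p` lies in the window. -/
theorem absNorm_mem_window (p : HeightOneSpectrum (𝓞 K))
    (hE : ∀ a b : 𝓞 K, b ≠ 0 → ∃ q : 𝓞 K,
      |Algebra.norm ℤ (a - b * q)| < |Algebra.norm ℤ b|) :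
    (Ideal.absNorm p.asIdeal : ℝ) ∈ window K p := by
  have hN : (0 : ℝ) < (Ideal.absNorm p.asIdeal : ℝ) := by
    exact_mod_cast lt_trans Nat.zero_lt_one (one_lt_absNorm p)
  have key : ∀ x : 𝓞 K, weightedNorm K p (Ideal.absNorm p.asIdeal : ℝ) (x : K) =
      ((|Algebra.norm ℤ x| : ℤ) : ℝ) := by
    intro x
    by_cases hx : x = 0
    · subst hx
      simp [weightedNorm, Algebra.norm_zero]
    · rw [weightedNorm_eq p _ x hx, div_self hN.ne', one_pow, mul_one]
      have h4 : Algebra.norm ℚ (x : K) = ((Algebra.norm ℤ x : ℤ) : ℚ) := by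
        rw [← Algebra.coe_norm_int]
      rw [h4]
      push_cast
      rfl
  refine ⟨hN, ⟨?_, ?_, ?_, ?_⟩⟩
  · intro r
    simp only [key]
    positivity
  · intro t ht
    refine Set.Finite.subset ((Set.finite_Icc (0 : ℤ) ⌊t⌋).image (fun n : ℤ => (n : ℝ))) ?_
    rintro y ⟨⟨r, hr⟩, hy0, hyt⟩
    simp only [key] at hr
    refine ⟨|Algebra.norm ℤ r|, ⟨abs_nonneg _, ?_⟩, hr⟩
    rw [Int.le_floor, hr]; exact hyt
  · intro r
    simp only [key]
    rw [Int.cast_eq_zero, abs_eq_zero, Algebra.norm_eq_zero_iff]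
  · intro a b hb
    obtain ⟨q, hq⟩ := hE a b hb
    refine ⟨q, ?_⟩
    simp only [key]
    exact_mod_cast hq

theorem window_subset (hr : NumberField.Units.rank K = 1) (p : HeightOneSpectrum (𝓞 K)) :
    window K p ⊆ Set.Ioi 1 := by
  intro c hc
  have h1 := absNorm_le_of_mem_window hr p hc
  have h2 : (1 : ℝ) < (Ideal.absNorm p.asIdeal : ℝ) := by exact_mod_cast one_lt_absNorm p
  exact lt_of_lt_of_le h2 h1

theorem isLeast_window (hr : NumberField.Units.rank K = 1) (p : HeightOneSpectrum (𝓞 K))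
    (hE : ∀ a b : 𝓞 K, b ≠ 0 → ∃ q : 𝓞 K,
      |Algebra.norm ℤ (a - b * q)| < |Algebra.norm ℤ b|) :
    IsLeast (window K p) (Ideal.absNorm p.asIdeal : ℝ) :=
  ⟨absNorm_mem_window p hE, fun _ hc => absNorm_le_of_mem_window hr p hc⟩

theorem not_isOpen_of_isLeast {s : Set ℝ} {m : ℝ} (h : IsLeast s m) : ¬ IsOpen s := by
  intro ho
  obtain ⟨ε, hε, hball⟩ := Metric.isOpen_iff.mp ho m h.1
  have hmem : m - ε / 2 ∈ s := by
    apply hball
    rw [Metric.mem_ball, Real.dist_eq]
    rw [show m - ε / 2 - m = -(ε / 2) by ring, abs_neg, abs_of_pos (by linarith)]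
    linarith
  have := h.2 hmem
  linarith

end Pool.Agent.H79.EucWin
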