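import Mathlib
import Pool.Agent.H79.EucWin.Facts

open NumberField IsDedekindDomain
open scoped QuadraticAlgebra

namespace Pool.Agent.H79.EucWin

theorem sqrt2_fact : ∀ r : ℚ, r ^ 2 ≠ 2 + 0 * r := by
  intro r hr
  have h : Irrational (Real.sqrt 2) := irrational_sqrt_two
  have h2 : (r : ℝ) ^ 2 = 2 := by
    have : r ^ 2 = 2 := by linarith
    exact_mod_cast this
  have h3 : |(r : ℝ)| = Real.sqrt 2 := by
    rw [← Real.sqrt_sq_eq_abs, h2]
  apply h
  refine ⟨|r|, ?_⟩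
  rw [← h3]; push_cast; rfl

instance fact2 : Fact (∀ r : ℚ, r ^ 2 ≠ 2 + 0 * r) := ⟨sqrt2_fact⟩

/-- the field `ℚ(√2)` as the quadratic algebra `ℚ[ω]`, `ω ^ 2 = 2`. -/
abbrev Q2 := QuadraticAlgebra ℚ 2 0

instance charZeroQ2 : CharZero Q2 := charZero_of_injective_algebraMap (algebraMap ℚ Q2).injective

instance finQ2 : FiniteDimensional ℚ Q2 := inferInstance

instance numQ2 : NumberField Q2 := ⟨⟩

theorem finrankQ2 : Module.finrank ℚ Q2 = 2 := by
  exact QuadraticAlgebra.finrank_eq_two 2 0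

/-- the generator. -/
def om : Q2 := ⟨0, 1⟩

theorem two_re : (2 : Q2).re = 2 := rfl
theorem two_im : (2 : Q2).im = 0 := rfl

theorem om_sq : om * om = 2 := by
  ext
  · rw [two_re]; simp [om]
  · rw [two_im]; simp [om]

theorem decomp (z : Q2) : z = (z.re : Q2) + (z.im : Q2) * om := by
  ext <;> simp [om]

/-- the embedding sending `ω` to `s`, where `s ^ 2 = 2`. -/
noncomputable def emb (s : ℝ) (hs : s * s = 2) : Q2 →+* ℂ where
  toFun z := (((z.re : ℝ) + (z.im : ℝ) * s : ℝ) : ℂ)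
  map_one' := by simp
  map_mul' x y := by
    rw [← Complex.ofReal_mul]
    congr 1
    simp
    linear_combination (-(x.im : ℝ) * (y.im : ℝ)) * hs
  map_zero' := by simp
  map_add' x y := by
    rw [← Complex.ofReal_add]
    congr 1
    simp; ring

theorem sqrt_mul : Real.sqrt 2 * Real.sqrt 2 = 2 := Real.mul_self_sqrt (by norm_num)
theorem neg_sqrt_mul : (-Real.sqrt 2) * (-Real.sqrt 2) = 2 := by
  rw [neg_mul_neg]; exact sqrt_mul

/-- the two places of `ℚ(√2)`. -/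
noncomputable def pl₁ : InfinitePlace Q2 := InfinitePlace.mk (emb (Real.sqrt 2) sqrt_mul)
/-- the two places of `ℚ(√2)`. -/
noncomputable def pl₂ : InfinitePlace Q2 := InfinitePlace.mk (emb (-Real.sqrt 2) neg_sqrt_mul)

theorem pl₁_apply (z : Q2) : pl₁ z = |(z.re : ℝ) + (z.im : ℝ) * Real.sqrt 2| := by
  unfold pl₁
  rw [InfinitePlace.apply]
  show ‖((((z.re : ℝ) + (z.im : ℝ) * Real.sqrt 2 : ℝ)) : ℂ)‖ = _
  rw [Complex.norm_real, Real.norm_eq_abs]

theorem pl₂_apply (z : Q2) : pl₂ z = |(z.re : ℝ) - (z.im : ℝ) * Real.sqrt 2| := by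
  unfold pl₂
  rw [InfinitePlace.apply]
  show ‖((((z.re : ℝ) + (z.im : ℝ) * (-Real.sqrt 2) : ℝ)) : ℂ)‖ = _
  rw [Complex.norm_real, Real.norm_eq_abs]
  congr 1; ring

theorem pl_ne : pl₁ ≠ pl₂ := by
  intro h
  have h1 := pl₁_apply (⟨1, 1⟩ : Q2)
  have h2 := pl₂_apply (⟨1, 1⟩ : Q2)
  rw [h, h2] at h1
  have h3 : (1:ℝ) < Real.sqrt 2 := by
    rw [show (1:ℝ) = Real.sqrt 1 by simp]
    exact Real.sqrt_lt_sqrt (by norm_num) (by norm_num)
  simp only [Rat.cast_one, one_mul] at h1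
  rw [abs_of_neg (by linarith), abs_of_pos (by linarith)] at h1
  linarith

theorem card_places : Fintype.card (InfinitePlace Q2) = 2 := by
  classical
  have h1 := InfinitePlace.card_eq_nrRealPlaces_add_nrComplexPlaces Q2
  have h2 := InfinitePlace.card_add_two_mul_card_eq_rank Q2
  rw [finrankQ2] at h2
  have h3 : 2 ≤ Fintype.card (InfinitePlace Q2) := by
    have : ({pl₁, pl₂} : Finset (InfinitePlace Q2)).card ≤ Fintype.card (InfinitePlace Q2) :=
      Finset.card_le_univ _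
    rwa [Finset.card_pair pl_ne] at this
  omega

theorem rankQ2 : NumberField.Units.rank Q2 = 1 := by
  unfold NumberField.Units.rank
  rw [card_places]

theorem univ_eq [DecidableEq (InfinitePlace Q2)] :
    (Finset.univ : Finset (InfinitePlace Q2)) = {pl₁, pl₂} := by
  symm
  apply Finset.eq_univ_of_card
  rw [Finset.card_pair pl_ne, card_places]

theorem absNormQ2 (z : Q2) : |(Algebra.norm ℚ z : ℚ)| = |z.re ^ 2 - 2 * z.im ^ 2| := by
  classical
  have h1 := InfinitePlace.prod_eq_abs_norm z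
  rw [univ_eq, Finset.prod_pair pl_ne] at h1
  have h2 : InfinitePlace.mult pl₁ + InfinitePlace.mult pl₂ = 2 := by
    have := InfinitePlace.sum_mult_eq (K := Q2)
    rw [univ_eq, Finset.sum_pair pl_ne, finrankQ2] at this
    exact this
  have h3 : 0 < InfinitePlace.mult pl₁ := InfinitePlace.mult_pos
  have h4 : 0 < InfinitePlace.mult pl₂ := InfinitePlace.mult_pos
  have h5 : InfinitePlace.mult pl₁ = 1 := by omega
  have h6 : InfinitePlace.mult pl₂ = 1 := by omega
  rw [h5, h6, pow_one, pow_one, pl₁_apply, pl₂_apply, ← abs_mul] at h1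
  have h7 : ((z.re : ℝ) + (z.im : ℝ) * Real.sqrt 2) * ((z.re : ℝ) - (z.im : ℝ) * Real.sqrt 2) =
      ((z.re ^ 2 - 2 * z.im ^ 2 : ℚ) : ℝ) := by
    push_cast
    linear_combination (-(z.im : ℝ) ^ 2) * sqrt_mul
  rw [h7] at h1
  have : ((|z.re ^ 2 - 2 * z.im ^ 2| : ℚ) : ℝ) = ((|Algebra.norm ℚ z| : ℚ) : ℝ) := by
    push_cast at h1 ⊢
    exact h1
  exact_mod_cast this.symm

/-- `ω` is an algebraic integer. -/
theorem om_integral : IsIntegral ℤ om := by
  refine ⟨Polynomial.X ^ 2 - Polynomial.C 2, Polynomial.monic_X_pow_sub_C 2 (by norm_num), ?_⟩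
  simp only [Polynomial.eval₂_sub, Polynomial.eval₂_pow, Polynomial.eval₂_X, Polynomial.eval₂_C]
  rw [pow_two, om_sq]
  simp

/-- `ω` as an element of the ring of integers. -/
noncomputable def omI : 𝓞 Q2 := ⟨om, om_integral⟩

theorem normEuclideanQ2 : ∀ a b : 𝓞 Q2, b ≠ 0 → ∃ q : 𝓞 Q2,
    |Algebra.norm ℤ (a - b * q)| < |Algebra.norm ℤ b| := by
  intro a b hb
  have hbK : (b : Q2) ≠ 0 := by simpa using hb
  set z : Q2 := (a : Q2) / (b : Q2) with hz
  set q : 𝓞 Q2 := (round z.re : 𝓞 Q2) + (round z.im : 𝓞 Q2) * omI with hq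
  refine ⟨q, ?_⟩
  have hqK : (q : Q2) = ((round z.re : ℤ) : Q2) + ((round z.im : ℤ) : Q2) * om := by
    rw [hq]; push_cast; rfl
  have e1 : ((a - b * q : 𝓞 Q2) : Q2) = (b : Q2) * (z - (q : Q2)) := by
    push_cast
    rw [hz]; field_simp
  have hre : (z - (q : Q2)).re = z.re - round z.re := by
    rw [hqK]; simp [om]
  have him : (z - (q : Q2)).im = z.im - round z.im := by
    rw [hqK]; simp [om]
  have hlt : |(Algebra.norm ℚ (z - (q : Q2)) : ℚ)| < 1 := by
    rw [absNormQ2, hre, him]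
    have r1 := abs_sub_round z.re
    have r2 := abs_sub_round z.im
    rw [abs_le] at r1 r2
    rw [abs_lt]
    constructor <;> nlinarith [sq_nonneg (z.re - round z.re), sq_nonneg (z.im - round z.im)]
  have hcast : ∀ x : 𝓞 Q2, ((|Algebra.norm ℤ x| : ℤ) : ℚ) = |Algebra.norm ℚ (x : Q2)| := by
    intro x
    rw [← Algebra.coe_norm_int]; push_cast; rfl
  have hbn : 0 < |Algebra.norm ℚ (b : Q2)| := by
    rw [abs_pos, Ne, Algebra.norm_eq_zero_iff]; exact hbK
  have : ((|Algebra.norm ℤ (a - b * q)| : ℤ) : ℚ) < ((|Algebra.norm ℤ b| : ℤ) : ℚ) := by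
    rw [hcast, hcast, e1, map_mul, abs_mul]
    nlinarith
  exact_mod_cast this

end Pool.Agent.H79.EucWin
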